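import Pool.Agent.P.MP_ab3ecb_nt.IK.Iface

/-! Step KEY. -/

set_option autoImplicit false
set_option linter.unusedSectionVars false

namespace Pool.Agent.P.MP_ab3ecb_nt.IK

open Filter Topology NumberField IsDedekindDomain TK
open Pool.Agent.P.MP_ab3ecb_nt.TP (Dn)
open Pool.Agent.P.MP_ab3ecb_nt.IS (Nr nr_of ef gap)
open Pool.Agent.P.MP_8b7eba_nt.R2 hiding Sm
open scoped Classical NNReal

lemma key_lev {l : Ultrafilter ℤ} {s t r : ℤ} {L : ℕ} (h : ∀ᶠ m in l, r ^ L ∣ t * m - s)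
    (h' : ¬ ∀ j : ℕ, ∀ᶠ m in l, r ^ j ∣ t * m - s) :
    ∃ i, L ≤ i ∧ ∀ᶠ m in l, r ^ i ∣ t * m - s ∧ ¬ r ^ (i + 1) ∣ t * m - s := by
  obtain ⟨j, hj⟩ := not_forall.1 h'
  obtain ⟨i, hi⟩ := KAx.exact_pow l s t r hj
  obtain ⟨m, h1, -, h2⟩ := (h.and hi).exists
  exact ⟨i, not_lt.1 fun h3 => h2 ((pow_dvd_pow _ h3).trans h1), hi⟩

variable {K : Type} [Field K] [NumberField K] [Algebra K Om] [Algebra K ℝ] [Cmp K] {A B : 𝓞 K}
  {F : MvPolynomial (Fin 2) (𝓞 K)}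

lemma key_pair (hSTK : S_STK) {B₀ : ℕ}
    {P R : Pt A B K} {s : ℤ} {t p q r : ℕ} (hD : 4 * A ^ 3 + 27 * B ^ 2 ≠ 0) (hO : Oth A B F)
    (hP : NT P) (hN : Neg F R) (hp : p.Prime) (hq : q.Prime) (hr : r.Prime) (pq : p ≠ q)
    (pr : p ≠ r) (qr : q ≠ r) (ht : 0 < t) (cp : t.Coprime p) (cq : t.Coprime q)
    (cr : t.Coprime r) : ∀ᶠ L : ℕ in atTop, ∀ l : Ultrafilter ℤ,
      SqH F B₀ l (fun m => R + m • 2 • P) → (∀ᶠ m in l, (p : ℤ) ^ L ∣ t * m - s) →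
      (∀ᶠ m in l, (q : ℤ) ^ L ∣ t * m - s) → (∀ᶠ m in l, (r : ℤ) ^ L ∣ t * m - s) →
      (∀ j : ℕ, ∀ᶠ m in l, (p : ℤ) ^ j ∣ t * m - s) ∨ ∀ j : ℕ, ∀ᶠ m in l, (q : ℤ) ^ j ∣ t * m - s := by
  obtain ⟨f, hf⟩ := a_WP A B hD
  obtain ⟨u, hu⟩ := hf.two (bc ℝ P)
  have hirr := KEYx.irr hf hP hu
  rw [← map_nsmul] at hu
  obtain ⟨c, c1, c2⟩ := ((hSTK A B F B₀ f _ R u s t p q r hD hO hf hu hirr hN hp hq hr pq pr qr ht
    (cq.mul_right cr)).and (hSTK A B F B₀ f _ R u s t q p r hD hO hf hu hirr hN hq hp hr pq.symm qr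
      pr ht (cp.mul_right cr))).exists
  filter_upwards [gap (hirr.div_natCast ht.ne') hp.pos hq.pos ((Nat.coprime_primes hp hq).2 pq)
    hr.one_lt c, eventually_ge_atTop c] with L g hL l lim h1 h2 h3
  by_contra h
  obtain ⟨i, i1, i2⟩ := key_lev h1 fun e => h (.inl e)
  obtain ⟨j, j1, j2⟩ := key_lev h2 fun e => h (.inr e)
  exact g i j
    (c1 l i j L lim (hL.trans j1) hL
      ((i2.and (j2.and h3)).mono fun m e => ⟨e.1.1, e.1.2, e.2.1.1, e.2.2⟩))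
    (c2 l j i L lim (hL.trans i1) hL
      ((j2.and (i2.and h3)).mono fun m e => ⟨e.1.1, e.1.2, e.2.1.1, e.2.2⟩))

lemma key_third (hSTK : S_STK) {B₀ : ℕ} {P R : Pt A B K} {s : ℤ} {t p q r : ℕ}
    (hD : 4 * A ^ 3 + 27 * B ^ 2 ≠ 0) (hO : Oth A B F) (hP : NT P) (hN : Neg F R) (hp : p.Prime)
    (hq : q.Prime) (hr : r.Prime) (pq : p ≠ q) (pr : p ≠ r) (qr : q ≠ r) (ht : 0 < t)
    (cp : t.Coprime p) (cq : t.Coprime q) (E : ℕ) : ∀ᶠ L : ℕ in atTop, ∀ l : Ultrafilter ℤ,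
      SqH F B₀ l (fun m => R + m • 2 • P) → (∀ᶠ m in l, (p : ℤ) ^ L ∣ t * m - s) →
      (∀ᶠ m in l, (q : ℤ) ^ L ∣ t * m - s) → ∀ᶠ m in l, (r : ℤ) ^ E ∣ t * m - s := by
  obtain ⟨f, hf⟩ := a_WP A B hD
  obtain ⟨u, hu⟩ := hf.two (bc ℝ P)
  have hirr := KEYx.irr hf hP hu
  rw [← map_nsmul] at hu
  obtain ⟨c, hc⟩ := (hSTK A B F B₀ f _ R u s t r p q hD hO hf hu hirr hN hr hp hq pr.symm qr.symm
    pq ht (cp.mul_right cq)).exists
  have far : ∀ i ∈ Set.Iio E, ∀ᶠ L : ℕ in atTop, ¬ Nr c (r ^ i * (u / t)) (p ^ L * q ^ L) :=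
    fun i _ => (gap ((hirr.div_natCast ht.ne').natCast_mul (pow_pos hr.pos i).ne') one_pos one_pos
      (Nat.coprime_one_left 1) (one_lt_mul'' hp.one_lt hq.one_lt) c).mono fun L h h' =>
        h 0 0 (by simpa [mul_pow] using h') (by simpa [mul_pow] using h')
  filter_upwards [(eventually_all_finite (Set.finite_Iio E)).2 far, eventually_ge_atTop c]
    with L h hL l lim h1 h2
  by_contra h3
  obtain ⟨i, hi⟩ := KAx.exact_pow l s t r h3
  exact h i (not_le.1 fun h4 => h3 (hi.mono fun m e => (pow_dvd_pow _ h4).trans e.1))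
    (hc l i L L lim hL hL ((hi.and (h1.and h2)).mono fun m e => ⟨e.1.1, e.1.2, e.2⟩))

lemma key_two {P R : Pt A B K} {l : Ultrafilter ℤ} {s : ℤ} {t p q : ℕ}
    (C : Ctx F (2 • P) R l s t p q) (hP : NT P) (hN : Neg F R) (hO : Oth A B F) (ht : 0 < t) :
    ∃ m₀ : ℤ, t * m₀ = s ∧ ∀ N : ℕ, 0 < N → ∀ᶠ m in l, (N : ℤ) ∣ m - m₀ := by
  obtain ⟨m₀, h⟩ := a_KEYB A B F P R l s t p q C hP hN hO ht
  refine ⟨m₀, sub_eq_zero.1 (by_contra fun h0 => ?_), h⟩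
  obtain ⟨m, h1, h2⟩ := ((C.dp (t * m₀ - s).natAbs).and (h _ (pow_pos C.hp.pos
    (t * m₀ - s).natAbs))).exists
  have h3 : ((p ^ (t * m₀ - s).natAbs : ℕ) : ℤ) ∣ t * m₀ - s := by
    have h4 := dvd_sub (by exact_mod_cast h1) (h2.mul_left t)
    rwa [show t * m - s - t * (m - m₀) = t * m₀ - s by ring] at h4
  exact (Nat.lt_pow_self C.hp.one_lt).not_ge
    (Nat.le_of_dvd (Int.natAbs_pos.2 h0) (Int.natCast_dvd.1 h3))

theorem p_KEY (hSTK : S_STK) :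
    S_KEY := by
  intro K _ _ _ _ _ A B F B₀ P R s t p q hD hO hP hN hp hq pq ht
  induction t using Nat.strong_induction_on generalizing s with
  | _ t ih =>
    by_cases e : ∃ x, (x = p ∨ x = q) ∧ x ∣ t
    · obtain ⟨x, hx, t', rfl⟩ := e
      have h1 : x.Prime := by rcases hx with h | h <;> rwa [h]
      have h' : 0 < t' := Nat.pos_of_mul_pos_left ht
      by_cases e1 : (x : ℤ) ∣ s
      · obtain ⟨s', rfl⟩ := e1
        obtain ⟨L₀, h2⟩ := eventually_atTop.1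
          (ih t' ((Nat.lt_mul_iff_one_lt_left h').2 h1.one_lt) s' h')
        filter_upwards [eventually_ge_atTop (L₀ + 1)] with L hL l lim hm
        have dr : ∀ (y : ℕ) (m : ℤ), y.Prime → (y : ℤ) ^ L ∣ (x * t' : ℕ) * m - x * s' →
            (y : ℤ) ^ L₀ ∣ t' * m - s' := fun y m hy h => KEYBx.drop hy h1
          ((pow_dvd_pow _ hL).trans (by rwa [mul_sub, ← mul_assoc, ← Nat.cast_mul]))
        obtain ⟨m₀, h3, h4⟩ := h2 L₀ le_rfl l lim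
          (hm.mono fun m h => ⟨dr _ _ hp h.1, dr _ _ hq h.2⟩)
        exact ⟨m₀, by rw [← h3, Nat.cast_mul, mul_assoc], h4⟩
      · filter_upwards [eventually_ge_atTop 1] with L hL l _ hm
        obtain ⟨m, h2⟩ := hm.exists
        have h3 : (x : ℤ) ^ L ∣ (x * t' : ℕ) * m - s := by
          rcases hx with h | h <;> rw [h] at h2 ⊢
          exacts [h2.1, h2.2]
        have h4 := (dvd_pow_self _ (by omega)).trans h3
        rw [Nat.cast_mul, mul_assoc] at h4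
        exact absurd ((dvd_sub_right (dvd_mul_right _ _)).1 h4) e1
    have c : ∀ x, x.Prime → x = p ∨ x = q → t.Coprime x := fun x h1 h2 =>
      (h1.coprime_iff_not_dvd.2 fun h => e ⟨x, h2, h⟩).symm
    have cp := c p hp (.inl rfl)
    have cq := c q hq (.inr rfl)
    obtain ⟨r, h0, hr⟩ := Nat.exists_infinite_primes (p + q + t + 1)
    have pr : p ≠ r := by omega
    have qr : q ≠ r := by omega
    have cr : t.Coprime r := (Nat.coprime_of_lt_prime ht.ne' (by omega) hr).symm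
    obtain ⟨E, k1, k2, k3⟩ :=
      ((key_pair hSTK (s := s) (B₀ := B₀) hD hO hP hN hp hq hr pq pr qr ht cp cq cr).and
      ((key_pair hSTK (s := s) (B₀ := B₀) hD hO hP hN hp hr hq pr pq qr.symm ht cp cr cq).and
      (key_pair hSTK (s := s) (B₀ := B₀) hD hO hP hN hq hr hp qr pq.symm pr.symm ht cq cr cp))).exists
    filter_upwards [key_third hSTK (s := s) (B₀ := B₀) hD hO hP hN hp hq hr pq pr qr ht cp cq E,
      eventually_ge_atTop E] with L k4 hL l lim hm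
    have m1 := hm.mono fun _ h => (pow_dvd_pow _ hL).trans h.1
    have m2 := hm.mono fun _ h => (pow_dvd_pow _ hL).trans h.2
    have m3 := k4 l lim (hm.mono fun _ h => h.1) (hm.mono fun _ h => h.2)
    rcases k1 l lim m1 m2 m3 with h1 | h1
    · rcases k3 l lim m2 m3 m1 with h2 | h2
      · exact key_two ⟨hD, ⟨B₀, lim⟩, hp, hq, pq, h1, h2⟩ hP hN hO ht
      · exact key_two ⟨hD, ⟨B₀, lim⟩, hp, hr, pr, h1, h2⟩ hP hN hO ht
    · rcases k2 l lim m1 m3 m2 with h2 | h2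
      · exact key_two ⟨hD, ⟨B₀, lim⟩, hp, hq, pq, h2, h1⟩ hP hN hO ht
      · exact key_two ⟨hD, ⟨B₀, lim⟩, hq, hr, qr, h1, h2⟩ hP hN hO ht

end Pool.Agent.P.MP_ab3ecb_nt.IK
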