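import Pool.Agent.P.MP_ab3ecb_nt.IK.Iface

/-! Step KF. -/

set_option autoImplicit false
set_option linter.unusedSectionVars false

namespace Pool.Agent.P.MP_ab3ecb_nt.IK

open Filter Topology NumberField IsDedekindDomain TK
open Pool.Agent.P.MP_ab3ecb_nt.TP (Dn)
open Pool.Agent.P.MP_ab3ecb_nt.IS (Nr nr_of ef gap)
open Pool.Agent.P.MP_8b7eba_nt.R2 hiding Sm
open scoped Classical NNReal

theorem p_KF (hSIG : S_SIG) :
    S_KF := by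
  intro K _ _ _ A B F B5 U P V W R' P₀ p q k hD hU hP' hV hW hR' hp hq hV0 hW0 hV1 hW1 hVW hVW'
    hR0 hα
  obtain ⟨B1, h1⟩ := a_PL.2.2.2.2.2.1 (ev F R') hα
  obtain ⟨B2, h2⟩ := a_PL.2.2.2.2.2.1 ((4 * A ^ 3 + 27 * B ^ 2 : 𝓞 K) : Om) (by exact_mod_cast hD)
  obtain ⟨B3, h3⟩ := KFx.bd (X W)
  obtain ⟨B4, h4⟩ := KFx.bd (X R')
  obtain ⟨T, -, hT⟩ := (a_ORB U hU).2.1 (Finset.range (B1 + B2 + B3 + B4 + B5 + 3))
  choose g hg0 hg using fun w : Pl =>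
    hSIG A B w U P V W P₀ p q k hD hU hP' hV hW hp hq hV0 hW0 hV1 hW1 hVW hVW'
  refine ⟨∏ w ∈ T, g w, Finset.prod_pos fun w _ => hg0 w,
    fun z l γ n d d' h5 hn hn0 hd hd' hγ w => ?_⟩
  replace hP' := hP'.add ((fixP_rt hP'.1 P₀).zsmul z)
  replace hg := fun w => hg w z
  generalize P + z • rt P₀ = P' at *
  have hβ : Fix U (bt P' V W d * bt P' V W d') := (hP'.bt hV hW d).mul (hP'.bt hV hW d')
  have hβ' : Fix (w.D ⊓ U) (bt P' V W d * bt P' V W d') := hβ.mono inf_le_right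
  by_cases hw : w.p < B1 + B2 + B3 + B4 + B5 + 3
  · have hO : ¬ Out U T w := fun h => (hT w).1 h (Finset.mem_range.2 hw)
    obtain ⟨u, hu, hu'⟩ : ∃ u ∈ U, u • w ∈ T := by
      by_contra h
      exact hO fun u hu hu' => h ⟨u, hu, hu'⟩
    exact Nm.of_sq ((sq_smul hu hβ).1
      (hg (u • w) n d d' hn ((Finset.dvd_prod_of_mem g hu').trans hn0) hd hd'))
  have hw2 : w.p ≠ 2 := by omega
  have key : ∀ e : ℕ, (∀ᶠ m in l, ∃ μ : ℤ, rt (γ m) = R' + μ • P' ∧ (e : ℤ) ∣ μ) →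
      E1 w.v (e • P') → Sq (w.D ⊓ U) (ev F R') := fun e h hE => by
    refine h5 w (by omega) U R' hR' hR0 (h4 w (by omega)) (h1 w (by omega)) ?_
    filter_upwards [h] with m ⟨μ, hm, c, hc⟩
    rw [hm, add_sub_cancel_left, hc, mul_comm, mul_smul, natCast_zsmul]
    exact ((a_MUL A B Om ℝ≥0 w.v).2.1 _ _ c hE.sm).1
  by_cases hE : E1 w.v ((p ^ k * d) • P')
  · exact Nm.of_sq_left hα (key _ (hγ.mono fun m ⟨μ, h⟩ => ⟨μ, h.1, h.2.1⟩) hE) hβ'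
  by_cases hE' : E1 w.v ((p ^ k * d') • P')
  · exact Nm.of_sq_left hα (key _ (hγ.mono fun m ⟨μ, h⟩ => ⟨μ, h.1, h.2.2⟩) hE') hβ'
  have e1 := a_GOOD A B w P' V W (p ^ k) d hw2 (h2 w (by omega)) hW1 (h3 w (by omega)) hV0 hW0 hE
  have e2 := a_GOOD A B w P' V W (p ^ k) d' hw2 (h2 w (by omega)) hW1 (h3 w (by omega)) hV0 hW0 hE'
  have e3 : w.v (bt P' V W d * bt P' V W d') = 1 := by rw [map_mul, e1, e2, mul_one]
  refine (a_NU w _ _ (w.loc_inf hU) hw2 ((hR'.ev F).mono inf_le_right) (h1 w (by omega))).1 _ hβ'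
    (fun h => by simp [h] at e3) ⟨1, fix_one, by simp [e3]⟩

end Pool.Agent.P.MP_ab3ecb_nt.IK
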