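import Pool.Agent.P.MP_ab3ecb_nt.IK.Iface

/-! Step KR. -/

set_option autoImplicit false
set_option linter.unusedSectionVars false

namespace Pool.Agent.P.MP_ab3ecb_nt.IK

open Filter Topology NumberField IsDedekindDomain TK
open Pool.Agent.P.MP_ab3ecb_nt.TP (Dn)
open Pool.Agent.P.MP_ab3ecb_nt.IS (Nr nr_of ef gap)
open Pool.Agent.P.MP_8b7eba_nt.R2 hiding Sm
open scoped Classical NNReal

open KRBx in
theorem kr_neg {K : Type} [Field K] [NumberField K] [Algebra K Om] [Algebra K ℝ] [Cmp K]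
    {A B : 𝓞 K} {f : ℝ →+ Pt A B ℝ} {V : Pt A B Om} {p : ℕ} {a b : ℤ} (hf : Unif f)
    (hp : p.Prime) (h1 : a + b = 1) (h2 : a - b = p) (hV : IsR 1 V (f (1 / p ^ 2))) :
    ∀ᶠ e in 𝓝[≠] (0 : ℝ), ∀ᶠ x in 𝓝 (1 / p ^ 2 + e : ℝ) ×ˢ 𝓝 (1 / p ^ 2 - e : ℝ),
      ∀ (P : Pt A B Om) (u : ℝ), IsR 1 P (f u) → ∀ (d d' : ℕ) (k k' : ℤ), d * u + k = x.1 →
        d' * u + k' = x.2 → (io (bt P (a • V) (b • V) d * bt P (a • V) (b • V) d')).re < 0 := by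
  have hW := two hf hp h1 h2
  generalize (1 / p ^ 2 : ℝ) = x₀ at *
  refine ((ne hf).and (nhdsWithin_le_nhds ((a_RS A B ℝ _ f hf.lim).2 _ hW))).mono fun e he => ?_
  obtain ⟨a1, a2, a3⟩ := he.2 he.1
  rw [sub_eq_add_neg (b • _), ← map_neg] at a2 a3
  have t1 := (lim a_LB hf a1 (X (b • f x₀)) (x₀ + e)).comp (tendsto_fst (g := 𝓝 (x₀ - e)))
  have t2 := (lim a_LB hf a2 (X (b • f x₀)) (x₀ - e)).comp (tendsto_snd (f := 𝓝 (x₀ + e)))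
  refine ((t1.mul t2).eventually_lt_const a3).mono fun x hx P u hP d d' k k' e1 e2 => ?_
  rw [map_mul, key hf h1 hP hV e e1, key hf h1 hP hV (-e) e2, ← Complex.ofReal_mul,
    Complex.ofReal_re]
  exact hx

theorem p_KR (hKRA : S_KRA) :
    S_KR := by
  intro K _ _ _ _ _ A B f P V P₀ u p M a b hD hf hp pM hM ab1 ab2 rP rV
  have hU := (a_ALG A B hD).2.2 P V
  have fin := (stab P V).quotient_finite_of_isOpen hU
  have e1 : ∀ᶠ x in 𝓝 (1 / p ^ 2 : ℝ) ×ˢ 𝓝 (1 / p ^ 2 : ℝ), ∀ c : GQ ⧸ stab P V, c.out ∈ GK K →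
      c.out ∉ stab P V → c.out⁻¹ * tau * c.out ∈ stab P V → ∀ (Q : Pt A B K) (u' : ℝ),
      Irrational u' → IsR 1 (P + rt Q) (f u') → ∀ (d d' : ℕ) (k k' : ℤ), 0 < d →
      0 < d' → (M : ℤ) ∣ d - 1 → (M : ℤ) ∣ d' - 1 → d * u' + k = x.1 → d' * u' + k' = x.2 →
      0 < (io (c.out (bt (P + rt Q) (a • V) (b • V) d * bt (P + rt Q) (a • V) (b • V) d'))).re :=
    eventually_all.2 fun c => eventually_imp_distrib_left.2 fun h0 =>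
      eventually_imp_distrib_left.2 fun h1 => eventually_imp_distrib_left.2 fun h2 =>
      hKRA A B f P V P₀ u p M a b ⟨c.out, h0⟩ hD hf hp pM hM ab1 ab2 rP rV h1 h2
  rw [← nhds_prod_eq] at e1
  have t1 : Tendsto (fun e : ℝ => ((1 / p ^ 2 + e, 1 / p ^ 2 - e) : ℝ × ℝ)) (𝓝[≠] 0)
      (𝓝 (1 / p ^ 2, 1 / p ^ 2)) :=
    (Continuous.tendsto' (by fun_prop) 0 _ (by simp)).mono_left nhdsWithin_le_nhds
  obtain ⟨e, e2, e3⟩ := ((t1.eventually e1.eventually_nhds).and (kr_neg hf hp ab1 ab2 rV)).exists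
  rw [nhds_prod_eq] at e2
  obtain ⟨s1, h1, s2, h2, h3⟩ := eventually_prod_iff.1 (e2.and e3)
  obtain ⟨x1, y1, m1, i1⟩ := mem_nhds_iff_exists_Ioo_subset.1 h1
  obtain ⟨x2, y2, m2, i2⟩ := mem_nhds_iff_exists_Ioo_subset.1 h2
  refine ⟨min (y1 - x1) (y2 - x2), x1, x2,
    lt_min (by linarith [m1.1, m1.2]) (by linarith [m2.1, m2.2]),
    fun Q u' hu rQ d d' k k' d2 d2' d3 d3' d4 d4' => ?_⟩
  obtain ⟨h4, h5⟩ := h3 (i1 ⟨d4.1, by linarith [d4.2, min_le_left (y1 - x1) (y2 - x2)]⟩)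
    (i2 ⟨d4'.1, by linarith [d4'.2, min_le_right (y1 - x1) (y2 - x2)]⟩)
  refine ⟨h5 _ u' rQ d d' k k' rfl rfl, fun g g0 g1 g2 => ?_⟩
  obtain ⟨y, hy⟩ := QuotientGroup.mk_out_eq_mul (stab P V) g
  obtain ⟨fP, fV⟩ := fixP_stab P V
  have fQ := fP.add (fixP_rt fP.1 Q)
  have h6 := h4 g (by rw [hy]; exact mul_mem g0 (stab_le P V y.2))
    (fun h => g1 (by rwa [hy, (stab P V).mul_mem_cancel_right y.2] at h)) (by
    rw [hy, show (g * y)⁻¹ * tau * (g * y) = (y : GQ)⁻¹ * (g⁻¹ * tau * g) * y by group]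
    exact mul_mem (mul_mem (inv_mem y.2) g2) y.2) Q u' hu rQ d d' k k' d2 d2' d3 d3' rfl rfl
  rwa [hy, AlgEquiv.mul_apply, ((fQ.bt (fV.zsmul a) (fV.zsmul b) d).mul
    (fQ.bt (fV.zsmul a) (fV.zsmul b) d')) y y.2] at h6

end Pool.Agent.P.MP_ab3ecb_nt.IK
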