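import Pool.Agent.P.MP_ab3ecb_nt.IK.Iface

/-! Step KRA. -/

set_option autoImplicit false
set_option linter.unusedSectionVars false

namespace Pool.Agent.P.MP_ab3ecb_nt.IK

open Filter Topology NumberField IsDedekindDomain TK
open Pool.Agent.P.MP_ab3ecb_nt.TP (Dn)
open Pool.Agent.P.MP_ab3ecb_nt.IS (Nr nr_of ef gap)
open Pool.Agent.P.MP_8b7eba_nt.R2 hiding Sm
open scoped Classical NNReal

theorem p_KRA :
    S_KRA := by
  intro K _ _ _ _ _ A B f P V P₀ u p M a b g hD hf hp cop hM ab1 ab2 rP rV hg hr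
  obtain ⟨RP, gP⟩ := ((a_ALG A B hD).2.1 g P).1 hr.2.1
  obtain ⟨RV, gV⟩ := ((a_ALG A B hD).2.1 g V).1 hr.2.2
  have p1 : (1 : ℝ) < p := Nat.one_lt_cast.2 hp.one_lt
  have nz : ∀ t : ℝ, 0 < t → t < 1 → f t ≠ 0 := fun t h0 h1 h => by
    obtain ⟨k, rfl⟩ := (hf.ker t).1 h
    have h2 : 0 < k := by exact_mod_cast h0
    have h3 : k < 1 := by exact_mod_cast h1
    omega
  have M0 : M ≠ 0 := fun h => hp.ne_one (by simpa [h] using cop)
  obtain ⟨T, hT⟩ : ∃ T, RP = f u + T := ⟨RP - f u, by abel⟩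
  have hMT : M • T = 0 := by
    have h1 := (hM ▸ gP.nsmul M).right (isR_rt g P₀)
    have h2 := (hM ▸ rP.nsmul M).right (isR_rt 1 P₀)
    rw [hT, smul_add, h2] at h1
    exact add_eq_left.1 h1
  have f0 : p ^ 2 • f (1 / p ^ 2) = 0 := by
    rw [← map_nsmul, hf.ker]
    exact ⟨1, by simp; field_simp⟩
  have f1 : p • f (1 / p ^ 2) ≠ 0 := by
    rw [← map_nsmul, nsmul_eq_mul, show (p : ℝ) * (1 / p ^ 2) = 1 / p by field_simp]
    exact nz _ (by positivity) ((div_lt_one (by positivity)).2 p1)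
  have v0 : p ^ 2 • RV = 0 := (gV.nsmul _).zero_iff.1 ((rV.nsmul _).zero_iff.2 f0)
  have v1 : p • RV ≠ 0 := fun h => f1 ((rV.nsmul _).zero_iff.1 ((gV.nsmul _).zero_iff.2 h))
  have b0 : b • RV ≠ 0 := fun h => v1 (by
    have h1 : ((p ^ 2 : ℕ) : ℤ) • RV = 0 := by rw [natCast_zsmul, v0]
    have h2 : (p : ℤ) = 2 * p * b + (p ^ 2 : ℕ) := by push_cast; linear_combination p * (ab2 - ab1)
    rw [← natCast_zsmul, h2, add_smul, h1, mul_smul, h, smul_zero, add_zero])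
  have sp : ∀ Q : Pt A B ℝ, Q - a • RV ≠ 0 → X (Q - a • RV) = X (b • RV) → Q = RV ∨ Q = p • RV :=
    fun Q h1 h2 => (eq_or_neg h1 b0 h2).imp
      (fun h => by rw [eq_add_of_sub_eq h, ← add_smul, add_comm, ab1, one_smul])
      fun h => by rw [eq_add_of_sub_eq h, neg_add_eq_sub, ← sub_smul, ab2, natCast_zsmul]
  have T0 : ∀ Q : Pt A B ℝ, p ^ 2 • Q = 0 → f (1 / p ^ 2) + T = Q → T = 0 := fun Q h1 h2 => by
    have h3 : p ^ 2 • T = 0 := by rw [← h2, smul_add, f0, zero_add] at h1; exact h1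
    have h4 := (addOrderOf_dvd_iff_nsmul_eq_zero.2 hMT)
    exact AddMonoid.addOrderOf_eq_one_iff.1 (Nat.eq_one_of_dvd_coprimes (cop.pow_right 2) h4
      (addOrderOf_dvd_iff_nsmul_eq_zero.2 h3))
  have ev := (a_RS A B ℝ (𝓝 (1 / p ^ 2)) (fun x => f (x - 1 / p ^ 2)) (hf.lim.comp
    ((continuous_sub_right _).tendsto' _ _ (sub_self _)))).1
    (f (1 / p ^ 2) + T - a • RV) (X (b • RV)) fun h1 h2 => by
      rcases sp _ h1 h2 with h | h
      · have h3 := T0 _ v0 h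
        rw [h3, add_zero] at h hT
        exact hg ⟨g.2, (gP.left (hT ▸ rP)).trans (act_one P), (gV.left (h ▸ rV)).trans (act_one V)⟩
      · have h3 := T0 _ (by rw [smul_comm, v0, smul_zero]) h
        rw [h3, add_zero] at h
        exact f1 (by rw [h, smul_smul, ← sq, v0])
  have one : ∀ (u : ℝ) (RP : Pt A B ℝ), Irrational u → RP = f u + T →
      ∀ (d : ℕ) (k : ℤ) (x : ℝ), 0 < d → (M : ℤ) ∣ d - 1 → d * u + k = x →
      f (1 / p ^ 2) + T - a • RV + f (x - 1 / p ^ 2) = d • RP - a • RV ∧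
      d • RP - a • RV ≠ 0 ∧ bt RP (a • RV) (b • RV) d ≠ 0 := by
    rintro u RP hu hT d k _ hd ⟨c, hc⟩ rfl
    have h1 : d • T = T := by
      rw [← natCast_zsmul, eq_add_of_sub_eq hc, add_smul, one_smul, mul_comm, mul_smul,
        natCast_zsmul, hMT, smul_zero, zero_add]
    have h2 : f k = 0 := (hf.ker _).2 ⟨k, rfl⟩
    have h3 : ∀ c : ℤ, d • RP ≠ c • RV := fun c h => by
      have h4 : f ((M * p ^ 2 * d : ℕ) * u) = 0 := by
        have h5 := congrArg (fun Q => (M * p ^ 2) • Q) h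
        simp only [hT, smul_add, h1] at h5
        rw [smul_comm _ c, mul_smul M _ RV, v0, mul_comm M, mul_smul _ M T, hMT, smul_zero,
          smul_zero, smul_zero, add_zero, smul_smul, mul_comm _ M] at h5
        rw [← nsmul_eq_mul, map_nsmul, h5]
      obtain ⟨j, hj⟩ := (hf.ker _).1 h4
      exact (hu.natCast_mul (mul_ne_zero (mul_ne_zero M0 (pow_ne_zero 2 hp.ne_zero)) hd.ne')).ne_int
        j hj
    have h6 : d • RP - a • RV ≠ 0 := sub_ne_zero.2 (h3 a)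
    refine ⟨?_, h6, fun h => ?_⟩
    · rw [hT, smul_add, h1, map_sub, map_add, h2, ← nsmul_eq_mul, map_nsmul]
      abel
    · rcases sp _ h6 (sub_eq_zero.1 h) with h7 | h7
      · exact h3 1 (by rw [h7, one_smul])
      · exact h3 p (by rw [h7, natCast_zsmul])
  filter_upwards [ev.prod_inl _, ev.prod_inr _] with x e1 e2 Q u' hu rQ d d' k k' hd hd' m m' h h'
  have gQ := gP.add (isR_rt g Q)
  have hT' : RP + bc ℝ Q = f u' + T := by
    rw [rQ.right (rP.add (isR_rt 1 Q)), hT]; abel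
  obtain ⟨a1, a2, a3⟩ := one _ _ hu hT' d k _ hd m h
  obtain ⟨b1, b2, b3⟩ := one _ _ hu hT' d' k' _ hd' m' h'
  rw [a1, Pos, or_iff_right a2, ← sub_pos] at e1
  rw [b1, Pos, or_iff_right b2, ← sub_pos] at e2
  rw [map_mul, map_mul, gQ.bt (gV.zsmul a) (gV.zsmul b), gQ.bt (gV.zsmul a) (gV.zsmul b),
    ← Complex.ofReal_mul, Complex.ofReal_re]
  rcases lt_or_gt_of_ne a3 with c1 | c1
  · exact mul_pos_of_neg_of_neg c1 (lt_of_le_of_ne (not_lt.1 fun c2 =>
      c1.not_gt (e1.2 (e2.1 c2))) b3)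
  · exact mul_pos c1 (e2.2 (e1.1 c1))

end Pool.Agent.P.MP_ab3ecb_nt.IK
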