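import Pool.Agent.P.MP_ab3ecb_nt.IK.Iface

/-! Step ONE. -/

set_option autoImplicit false
set_option linter.unusedSectionVars false

namespace Pool.Agent.P.MP_ab3ecb_nt.IK

open Filter Topology NumberField IsDedekindDomain TK
open Pool.Agent.P.MP_ab3ecb_nt.TP (Dn)
open Pool.Agent.P.MP_ab3ecb_nt.IS (Nr nr_of ef gap)
open Pool.Agent.P.MP_8b7eba_nt.R2 hiding Sm
open scoped Classical NNReal

theorem p_ONE (hKF : S_KF) (hKR : S_KR) :
    S_ONE := by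
  intro K _ _ _ _ _ A B F B₀ f P R P₀ P₁ R' u p q M hD hO hf hp hq ne hp2 hM cop hMP rP rR hR0 hRn
  obtain ⟨g1, g2, g3⟩ := a_ALG A B hD
  have hp0 : (p : ℝ) ≠ 0 := by exact_mod_cast hp.ne_zero
  obtain ⟨V, hV⟩ := g1 (f (1 / p ^ 2)) ((p : ℤ) ^ 2) 0
    (pow_ne_zero 2 (by exact_mod_cast hp.ne_zero)) (by
    rw [map_zero, ← map_zsmul, ← KEYx.f_int hf 1]
    congr 1
    simp only [zsmul_eq_mul]
    push_cast
    field_simp)
  have hT := KEYx.tors hf hp.ne_zero hV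
  obtain ⟨b, hb⟩ := hp.odd_of_ne_two hp2
  have hab : ((b : ℤ) + 1) + -(b : ℤ) = 1 := by ring
  have hab' : ((b : ℤ) + 1) - -(b : ℤ) = p := by rw [hb]; push_cast; ring
  have hp1 := hp.two_le
  have nd : ∀ c : ℤ, c ≠ 0 → |c| ≤ p → c • V ≠ 0 := fun c h0 h1 h2 => by
    have h3 := Int.le_of_dvd (abs_pos.2 h0) ((dvd_abs _ _).2 ((hT c).1 h2))
    have h4 : (2 : ℤ) ≤ p := by exact_mod_cast hp1
    nlinarith
  have hV2 : ∀ c : ℤ, p ^ 2 • c • V = 0 := fun c => by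
    rw [← natCast_zsmul, ← mul_smul, hT]
    push_cast
    exact dvd_mul_right _ _
  obtain ⟨hFP, hFV⟩ := fixP_stab P V
  have hFP' : ∀ z : ℤ, FixP (stab P V) (P + z • rt P₀) := fun z => hFP.add ((fixP_rt hFP.1 _).zsmul z)
  have hα : (io (ev F R)).re < 0 := by
    rw [show io (ev F _) = _ from rR.ev F, Complex.ofReal_re]
    exact hRn
  have hα0 : ev F R ≠ 0 := fun h => by
    rw [h] at hα
    simp at hα
  by_cases hFR : FixP (stab P V) R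
  swap
  · refine .of_forall fun c z u' l γ j k _ _ _ _ _ h => absurd ?_ hFR
    obtain ⟨m, μ, e, -⟩ := h.exists
    rw [eq_sub_of_add_eq e.symm]
    exact (fixP_rt hFP.1 _).sub ((hFP' z).zsmul μ)
  obtain ⟨n₀, hn₀, hNm⟩ := hKF A B F B₀ (stab P V) P (((b : ℤ) + 1) • V) ((-(b : ℤ)) • V) R P₀ p q 2
    hD (g3 P V) hFP (hFV.zsmul _) (hFV.zsmul _) hFR hp hq (hV2 _) (hV2 _)
    (nd _ (by omega) (abs_le.2 ⟨by omega, by omega⟩)) (nd _ (by omega) (abs_le.2 ⟨by omega, by omega⟩))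
    (by rw [← add_smul, hab]; exact nd _ (by omega) (abs_le.2 ⟨by omega, by omega⟩))
    (by rw [← sub_smul, hab']; exact nd _ (by omega) (abs_le.2 ⟨by omega, by omega⟩))
    (fun h => hR0 (rR.zero_iff.1 h)) hα0
  obtain ⟨η, y, y', hη, hr⟩ := hKR A B f P V P₁ u p M _ _ hD hf hp cop.coprime_mul_right_right hMP
    hab hab' rP hV
  obtain ⟨n₁, N, e, pn1, -, he, har⟩ := TP.a_AR p q M hp hq hM
  have n0 : 0 < n₀ * n₁ := mul_pos hn₀ pn1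
  have cpq := (Nat.coprime_primes hp hq).2 ne
  filter_upwards [ef hp.one_lt hq.one_lt cpq n0 hη] with c hc z u' l γ j k hL hu rP' hj hk hm
  by_contra hN
  have hit : ∀ y : ℝ, ∃ (d : ℕ) (i : ℤ), Dn p q (n₀ * n₁) d ∧ 0 < d ∧ (M : ℤ) ∣ d - 1 ∧
      (∀ μ : ℤ, (p : ℤ) ^ j ∣ μ → (q : ℤ) ^ k ∣ μ → ((p ^ 2 * d : ℕ) : ℤ) ∣ μ) ∧
      d * u' + i ∈ Set.Ioo y (y + η) := fun y => by
    by_contra h
    refine hN (hc u' y j k hj hk fun s t hs ht h1 h2 i hi => h ?_)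
    have h5 : Dn p q (n₀ * n₁) (p ^ (n₀ * n₁ * s) * q ^ (n₀ * n₁ * t)) := ⟨_, _, hs, ht, rfl⟩
    refine ⟨_, i, h5, mul_pos (pow_pos hp.pos _) (pow_pos hq.pos _), ?_, fun μ m1 m2 => ?_, hi⟩
    · simpa using dvd_add (har _ _ n0 (dvd_mul_left _ _) h5).2 (he cop)
    · refine dvd_trans ?_ ((Nat.isCoprime_iff_coprime.2 cpq).pow.mul_dvd m1 m2)
      push_cast
      rw [← mul_assoc, ← pow_add]
      exact mul_dvd_mul (pow_dvd_pow _ (by omega)) (pow_dvd_pow _ h2)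
  obtain ⟨d, i, d1, d2, d3, d4, d5⟩ := hit y
  obtain ⟨d', i', d1', d2', d3', d4', d5'⟩ := hit y'
  obtain ⟨hneg, hpos⟩ := hr (z • P₀) u' hu (by rwa [map_zsmul]) d d' i i' d2 d2' d3 d3' d5 d5'
  rw [map_zsmul] at hneg hpos
  have htau : tau ∈ stab P V := by
    have h1 := (g2 1 P).2 ⟨_, rP⟩
    have h2 := (g2 1 V).2 ⟨_, hV⟩
    rw [inv_one, one_mul, mul_one] at h1 h2
    exact ⟨(tauK K).2, h1, h2⟩
  obtain ⟨g, hg, hg', hlt', hlt⟩ := a_QR (stab P V) _ _ (g3 P V) (hFR.ev F)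
    (((hFP' z).bt (hFV.zsmul _) (hFV.zsmul _) d).mul ((hFP' z).bt (hFV.zsmul _) (hFV.zsmul _) d'))
    hα0 (fun h => by rw [h] at hneg; simp at hneg)
    (hNm z l γ _ d d' hL n0 (dvd_mul_right _ _) d1 d1'
      (hm.mono fun m ⟨μ, m1, m2, m3⟩ => ⟨μ, m1, d4 μ m2 m3, d4' μ m2 m3⟩)) htau hα hneg
  by_cases g0 : g ∈ GK K
  · exact (hpos g g0 hg hg').not_gt hlt
  · exact (a_OTH A B F _ _ g hO hFR (fun h => hR0 (rR.zero_iff.1 h)) g0 hg').not_gt hlt'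

end Pool.Agent.P.MP_ab3ecb_nt.IK
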