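import Pool.Agent.P.MP_ab3ecb_nt.IK.Iface

/-! Step STK. -/

set_option autoImplicit false
set_option linter.unusedSectionVars false

namespace Pool.Agent.P.MP_ab3ecb_nt.IK

open Filter Topology NumberField IsDedekindDomain TK
open Pool.Agent.P.MP_ab3ecb_nt.TP (Dn)
open Pool.Agent.P.MP_ab3ecb_nt.IS (Nr nr_of ef gap)
open Pool.Agent.P.MP_8b7eba_nt.R2 hiding Sm
open scoped Classical NNReal

lemma stk_neg {K : Type} [Field K] [NumberField K] [Algebra K ℝ] {A B : 𝓞 K}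
    {F : MvPolynomial (Fin 2) (𝓞 K)} {f : ℝ →+ Pt A B ℝ} {R : Pt A B K}
    (hf : Unif f) (hN : Neg F R) (x : ℝ) {r : ℕ} (hr : 1 < r) : ∃ (e : ℕ) (k : ℤ),
    bc ℝ R + f (x + k / (r ^ e : ℕ)) ≠ 0 ∧
      ev F (bc ℝ R + f (x + k / (r ^ e : ℕ))) < 0 := by
  obtain ⟨Z, x₁, y₁, h₁, hZ, hF⟩ := hN
  obtain ⟨t₀, ht₀⟩ := hf.two Z
  set P := bc ℝ R with hP
  have h0 : P + f t₀ ≠ 0 := by rw [ht₀, hZ]; exact WeierstrassCurve.Affine.Point.some_ne_zero _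
  have h1 : ev F (P + f t₀) < 0 := by rw [ht₀, hZ]; exact hF
  have h2 := a_LB A B ℝ ℝ (𝓝 0) _ f _ (toA_const _ h0) hf.lim
  have h3 := h2.2.1.and (((a_EVC A B F).2 ℝ ℝ _ _ _ h2).eventually (gt_mem_nhds h1))
  obtain ⟨η, hη, h4⟩ := Metric.eventually_nhds_iff.1 h3
  have r1 : (1 : ℝ) < r := by exact_mod_cast hr
  obtain ⟨n, hn⟩ := pow_unbounded_of_one_lt η⁻¹ r1
  have q0 : (0 : ℝ) < (r : ℝ) ^ n := by positivity
  set ρ := ⌊(t₀ - x) * (r : ℝ) ^ n⌋ with hρ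
  have e4 : dist (ρ / (r : ℝ) ^ n - (t₀ - x)) 0 < η := by
    rw [Real.dist_eq, sub_zero, div_sub' q0.ne', abs_div, abs_of_pos q0, div_lt_iff₀ q0]
    have e5 := Int.floor_le ((t₀ - x) * (r : ℝ) ^ n)
    have e6 := Int.lt_floor_add_one ((t₀ - x) * (r : ℝ) ^ n)
    have e7 : 1 < η * (r : ℝ) ^ n := by rwa [inv_lt_iff_one_lt_mul₀' hη] at hn
    rw [abs_lt]
    constructor <;> linarith
  refine ⟨n, ρ, ?_⟩
  rw [show x + ρ / (r ^ n : ℕ) = t₀ + (ρ / (r : ℝ) ^ n - (t₀ - x)) by push_cast; ring, map_add,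
    ← add_assoc]
  exact h4 e4

theorem p_STK (hONE : S_ONE) :
    S_STK := by
  intro K _ _ _ _ _ A B F B₀ f P R u s t r p q hD hO hf hu hirr hN hr hp hq rp rq ne ht cop
  wlog hp2 : p ≠ 2 generalizing p q
  · filter_upwards [this q p hq hp rq rp ne.symm (by rwa [mul_comm]) (by omega)]
      with c hc l i j k hL hj hk hm
    rw [mul_comm ((p : ℝ) ^ j)]
    exact hc l i k j hL hk hj (hm.mono fun m h => ⟨h.1, h.2.1, h.2.2.2, h.2.2.1⟩)
  obtain ⟨e, κ, hR0, hRn⟩ := stk_neg hf hN (s * (u / t)) hr.one_lt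
  obtain ⟨g1, -, -⟩ := a_ALG A B hD
  have t0 : (t : ℝ) ≠ 0 := by positivity
  have E0 : 0 < r ^ e := pow_pos hr.pos e
  have cE : (r ^ e).Coprime (p * q) := Nat.Coprime.pow_left e (Nat.Coprime.mul_right
    ((Nat.coprime_primes hr hp).2 rp) ((Nat.coprime_primes hr hq).2 rq))
  have dE : ∀ i : ℕ, ((r ^ e : ℕ) : ℤ) * (r : ℤ) ^ i = (r : ℤ) ^ (i + e) := fun i => by
    push_cast; ring
  have pE : ∀ μ : ℤ, ¬ (r : ℤ) ∣ μ → IsCoprime ((r ^ e : ℕ) : ℤ) μ := fun μ h => by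
    push_cast
    exact ((Nat.prime_iff_prime_int.1 hr).coprime_iff_not_dvd.2 h).pow_left
  generalize r ^ e = E at *
  have E1 : (E : ℝ) ≠ 0 := by positivity
  have f1 : (t : ℤ) • f (u / t) = bc ℝ P := by
    rw [← map_zsmul, ← hu, zsmul_eq_mul, Int.cast_natCast, mul_div_cancel₀ _ t0]
  have f2 : (E : ℤ) • f (κ / E) = bc ℝ 0 := by
    rw [← map_zsmul, zsmul_eq_mul, Int.cast_natCast, mul_div_cancel₀ _ E1, map_zero,
      KEYx.f_int hf]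
  obtain ⟨P₁, r1⟩ := g1 _ t P (by exact_mod_cast ht.ne') f1
  obtain ⟨T, r2⟩ := g1 _ E 0 (by exact_mod_cast E0.ne') f2
  have e1 : (t : ℤ) • P₁ = rt P := by
    have h := (f1 ▸ r1.zsmul t).left (isR_rt 1 _)
    rwa [act_one, act_one] at h
  have e2 : (E : ℤ) • T = 0 := by
    have h := (f2 ▸ r2.zsmul E).left (isR_rt 1 _)
    rwa [act_one, act_one, map_zero] at h
  have r3 : ∀ x y : ℤ, IsR 1 (x • P₁ - y • T) (f (x * (u / t) - (y * κ : ℤ) / E)) := fun x y => by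
    have h := (r1.zsmul x).sub (r2.zsmul y)
    rwa [← map_zsmul, ← map_zsmul, ← map_sub, zsmul_eq_mul, zsmul_eq_mul, ← mul_div_assoc (y : ℝ),
      ← Int.cast_mul] at h
  have r4 : IsR 1 (rt R + (s • P₁ + T)) (bc ℝ R + f (s * (u / t) + κ / E)) := by
    have h := (r1.zsmul s).add r2
    rw [← map_zsmul, ← map_add, zsmul_eq_mul] at h
    exact (isR_rt 1 R).add h
  have H := fun (x : ℤ × ℤ) (_ : x ∈ Set.Ico (0 : ℤ) t ×ˢ Set.Ico (0 : ℤ) E) =>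
    hONE A B F B₀ f (x.1 • P₁ - x.2 • T) _ P ((E * x.1) • P) _ _ p q (t * E) hD hO hf hp hq ne hp2
      (mul_pos ht E0) (cop.mul_left cE) (by
        rw [map_zsmul, ← e1, ← natCast_zsmul]
        push_cast
        linear_combination (norm := module) (-(t * x.2 : ℤ)) • e2) (r3 _ _) r4 hR0 hRn
  filter_upwards [(eventually_all_finite ((Set.finite_Ico _ _).prod (Set.finite_Ico _ _))).2 H,
    eventually_ge_atTop E] with c hc c1 l i j k hL hj hk hm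
  obtain ⟨m₀, hm₀⟩ := KAx.resid l (n := (r : ℤ) ^ (i + e)) (pow_pos (by exact_mod_cast hr.pos) _)
  obtain ⟨m₁, ⟨⟨μ₁, h1⟩, h2, -⟩, h3⟩ := (hm.and hm₀).exists
  obtain ⟨α, β, hαβ⟩ := pE μ₁ fun h => h2 (by rw [h1, pow_succ]; exact mul_dvd_mul_left _ h)
  have tz : (0 : ℤ) < t := by exact_mod_cast ht
  have Ez : (0 : ℤ) < E := by exact_mod_cast E0
  have rz : (r : ℤ) ^ i ≠ 0 := pow_ne_zero _ (by exact_mod_cast hr.ne_zero)
  have e3 : ((r : ℤ) ^ i % t) • P₁ - (β % E) • T + ((r : ℤ) ^ i / t) • rt P =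
      (r : ℤ) ^ i • P₁ - (β % E) • T := by
    rw [← e1, ← mul_smul, sub_add_eq_add_sub, ← add_smul, mul_comm, Int.emod_add_mul_ediv]
  refine Nr.shift (z := β % E * κ) E0 c1 (hc (r ^ i % t, β % E)
    ⟨⟨Int.emod_nonneg _ tz.ne', Int.emod_lt_of_pos _ tz⟩,
      Int.emod_nonneg _ Ez.ne', Int.emod_lt_of_pos _ Ez⟩ (r ^ i / t) _ l _ j k hL ?_ ?_ hj hk ?_)
  · have h := ((hirr.div_natCast ht.ne').natCast_mul (pow_pos hr.pos i).ne').sub_ratCast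
      ((β % E * κ : ℤ) / E)
    push_cast at h ⊢
    exact h
  · rw [e3]
    have h := r3 (r ^ i) (β % E)
    rwa [Int.cast_pow, Int.cast_natCast] at h
  filter_upwards [hm, hm₀] with m ⟨⟨μ, h4⟩, _, h5, h6⟩ h7
  have cp : ∀ x n : ℕ, x.Prime → r ≠ x → (x : ℤ) ^ n ∣ t * m - s → (x : ℤ) ^ n ∣ μ :=
    fun x n hx h h' => (Nat.isCoprime_iff_coprime.2
      ((Nat.coprime_primes hx hr).2 h.symm)).pow.dvd_of_dvd_mul_left (h4 ▸ h')
  refine ⟨μ, ?_, cp _ _ hp rp h5, cp _ _ hq rq h6⟩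
  obtain ⟨ν, hν⟩ := dvd_sub h7 h3
  have e4 : μ = μ₁ + E * (t * ν) := mul_left_cancel₀ rz (by
    rw [← h4, mul_add, ← h1]
    linear_combination (t : ℤ) * hν - t * ν * dE i)
  have e5 : μ * (β % E) = 1 + (t * ν * β - α - μ * (β / E)) * E := by
    rw [Int.emod_def]
    linear_combination hαβ + β * e4
  have e6 : m • rt P = s • P₁ + (μ * r ^ i) • P₁ := by
    rw [← e1, ← mul_smul, ← add_smul]
    congr 1
    linear_combination h4
  rw [e3, map_add, map_zsmul, e6, smul_sub, ← mul_smul, ← mul_smul, e5, add_smul, one_smul,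
    mul_smul _ (E : ℤ) T, e2, smul_zero]
  abel

end Pool.Agent.P.MP_ab3ecb_nt.IK
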