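import Pool.Agent.P.MP_ab3ecb_nt.IK.Iface

/-! Step TOP. -/

set_option autoImplicit false
set_option linter.unusedSectionVars false

namespace Pool.Agent.P.MP_ab3ecb_nt.IK

open Filter Topology NumberField IsDedekindDomain TK
open Pool.Agent.P.MP_ab3ecb_nt.TP (Dn)
open Pool.Agent.P.MP_ab3ecb_nt.IS (Nr nr_of ef gap)
open Pool.Agent.P.MP_8b7eba_nt.R2 hiding Sm
open scoped Classical NNReal

variable {K : Type} [Field K] [NumberField K] [Algebra K Om] {A B : 𝓞 K}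

lemma top_id {P R Q : Pt A B K} {n k k' : ℕ} {j j' : ℤ} (hk : k • Q = j • P)
    (hk' : k' • R = j' • P) (m : ℤ) : (((n * k * k' : ℕ) : ℤ) * m - (k' * j - n * k * j')) • P =
      ((k * k' : ℕ) : ℤ) • (n • (R + m • P) - Q) := by
  rw [← natCast_zsmul] at hk hk'
  rw [← natCast_zsmul _ n]
  push_cast
  linear_combination (norm := module) (k' : ℤ) • hk - (n * k : ℤ) • hk'

lemma top_dv (hD : 4 * A ^ 3 + 27 * B ^ 2 ≠ 0) {r : HeightOneSpectrum (𝓞 K)} {w : Pl}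
    (hw : Over w r) {P : Pt A B K}
    (hP : NT P) (L : ℕ) : ∀ᶠ c : ℝ≥0 in 𝓝[>] 0, ∀ (a : Pt A B (Kv r)) (R Q : Pt A B K)
      (l : Ultrafilter ℤ) (n k k' : ℕ) (j j' : ℤ), k • Q = j • P → k' • R = j' • P →
      Sm (NormedField.valuation (K := Kv r)) c (n • a - bc _ Q) →
      Tendsto (fun m : ℤ => co (bc (Kv r) (R + m • P))) l (𝓝 (co a)) →
      ∀ᶠ m in l, (w.p : ℤ) ^ L ∣ ((n * k * k' : ℕ) : ℤ) * m - (k' * j - n * k * j') := by
  have := a_PROP r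
  obtain ⟨c₀, hc₀, hd⟩ := a_DIV A B w P L hD hP
  obtain ⟨z, z0, hz, -⟩ := hw.small hc₀ one_pos
  have hc := nnnorm_pos.2 ((map_ne_zero (algebraMap K (Kv r))).2 z0)
  filter_upwards [nhdsWithin_le_nhds (Iic_mem_nhds hc)] with c' hc' a R Q l n k k' j j' hk hk' ha hl
  have h2 := ((a_CO A B (Kv r) ℤ l (fun m : ℤ => bc (Kv r) (R + m • P)) a).1 hl).2
  rw [a_TS A B (Kv r) ℤ] at h2
  obtain ⟨m1, m2, -⟩ := a_MUL A B (Kv r) ℝ≥0 (NormedField.valuation (K := Kv r))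
  filter_upwards [h2 _ hc] with m hm
  refine hd _ (((hw.sm z _).2 ?_).mono hz)
  rw [top_id hk hk', map_zsmul, map_sub, map_nsmul]
  refine m2 _ _ _ ?_
  have h3 := m1 _ _ _ (m2 _ _ n hm) (ha.mono hc')
  rwa [natCast_zsmul, smul_sub, sub_add_sub_cancel] at h3

lemma top_ord {r : HeightOneSpectrum (𝓞 K)} {w : Pl} (hw : Over w r) {Y : Pt A B K} {N : ℕ}
    (hN : N ≠ 0) (h : N • Y = 0) {c : ℝ≥0}
    (hY : Sm (NormedField.valuation (K := Kv r)) c (bc _ Y)) :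
    ∃ i, addOrderOf Y ∣ w.p ^ i := by
  obtain ⟨-, m2, m3⟩ := a_MUL A B Om ℝ≥0 w.v
  obtain ⟨i, N', h1, rfl⟩ := Nat.exists_eq_pow_mul_and_not_dvd hN w.p w.prime.ne_one
  have h2 := (m2 _ _ ((w.p ^ i : ℕ) : ℤ)
    ((hw.sm 1 Y).2 ⟨hY.1, by simpa using hY.1.Z_lt.le⟩)).1
  have h3 := m3 _ N' (Pl.v_int_eq_one.2 (by exact_mod_cast h1)) h2
  rw [natCast_zsmul, natCast_zsmul, ← mul_smul, mul_comm, ← map_nsmul, h, map_zero, Z_zero,
    map_zero] at h3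
  rw [natCast_zsmul] at h2
  have h4 := h2.eq_zero h3.symm
  rw [← map_nsmul, bc_eq_zero] at h4
  exact ⟨i, addOrderOf_dvd_iff_nsmul_eq_zero.2 h4⟩

theorem p_TOP (hKEY : S_KEY) (hULT : S_ULT) :
    S_TOP := by
  intro K _ _ _ _ _ A B Γ F S p q n Q hD hΓ hS hO pq hn hQ
  obtain ⟨P, hP, T, hT, hT', hk, hU⟩ := hULT A B Γ F S hΓ
  choose w hw using (a_LNK K).2.1
  have ne : ∀ {x y : S}, x.1.asIdeal.under ℤ ≠ y.1.asIdeal.under ℤ → (w x).p ≠ (w y).p :=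
    fun h e => h (by rw [(a_LNK K).2.2 _ _ (hw _), (a_LNK K).2.2 _ _ (hw _), e])
  obtain ⟨B₀, hB⟩ := TOPx.bdS a_LNK hS
  obtain ⟨k, j, hk0, hkj⟩ := hk Q hQ
  have key : ∀ R ∈ T, ∀ᶠ c : ℝ≥0 in 𝓝[>] 0, ∀ (a : ∀ r : S, Pt A B (Kv r.1)) (l : Ultrafilter ℤ),
      (∀ r, a r ≠ 0 → IsSquare (ev F (a r))) →
      (∀ r : S, Tendsto (fun m : ℤ => co (bc (Kv r.1) (R + m • 2 • P))) l (𝓝 (co (a r)))) → (∀ u : S, u = p ∨ u = q →
        Sm (NormedField.valuation (K := Kv u.1)) c (n • a u - bc _ Q)) →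
      ∃ m₀ : ℤ, (∃ N : ℕ, N ≠ 0 ∧ N • (n • (R + m₀ • 2 • P) - Q) = 0) ∧
        ∀ N : ℕ, 0 < N → ∀ᶠ m in l, ∃ k : ℤ, (m - m₀) • 2 • P = k • N • 2 • P := fun R hR => by
    obtain ⟨k', j', hk0', hkj'⟩ := hk R (hT' R hR).1
    by_cases hNT : NT P
    · have hNT2 : NT (2 • P) := fun i hi => by
        have h := hNT (i * 2) (by rw [mul_smul, ← hi, ← natCast_zsmul]; rfl)
        omega
      obtain ⟨L, hL⟩ := (hKEY A B F (B₀ + 2) P R (k' * j - n * k * j') (n * k * k') _ _ hD hO hNT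
        (hT' R hR).2 (w p).prime (w q).prime (ne pq) (by positivity)).exists
      filter_upwards [top_dv hD (hw p) hNT2 L, top_dv hD (hw q) hNT2 L]
        with c c1 c2 a l hsq lim hs
      obtain ⟨m₀, h1, hm⟩ := hL l (fun w h U R' h1 h2 h3 h4 h5 =>
          let ⟨r, hr⟩ := hB w (by omega)
          a_SQ A B F r.1 w U R' l _ (a r) hr (by omega) h1 h2 h3 h4 l.neBot h5 (lim r) (hsq r))
        ((c1 _ R Q l n k k' j j' hkj hkj' (hs p (.inl rfl)) (lim p)).and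
          (c2 _ R Q l n k k' j j' hkj hkj' (hs q (.inr rfl)) (lim q)))
      refine ⟨m₀, ⟨k * k', by positivity, ?_⟩, fun N hN => (hm N hN).mono fun m ⟨i, hi⟩ => ⟨i, ?_⟩⟩
      · rw [← natCast_zsmul, ← top_id hkj hkj', h1, sub_self, zero_smul]
      · rw [hi, ← natCast_zsmul (2 • P) N, mul_comm, mul_smul]
    · obtain ⟨i, hi, hi0⟩ : ∃ i : ℤ, i • P = 0 ∧ i ≠ 0 := by
        by_contra h
        exact hNT fun i hi => by_contra fun h0 => h ⟨i, hi, h0⟩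
      refine .of_forall fun c a l _ _ _ => ?_
      obtain ⟨m₀, hm⟩ := TOPx.res l i hi0
      refine ⟨m₀, ⟨i.natAbs * (k * k'), by positivity, ?_⟩,
        fun N _ => hm.mono fun m ⟨k, hk⟩ => ⟨0, ?_⟩⟩
      · rw [mul_smul, ← natCast_zsmul _ (k * k'), ← top_id hkj hkj', smul_comm, smul_comm _ 2,
          natAbs_nsmul_eq_zero.2 hi, smul_zero, smul_zero]
      · rw [hk, zero_smul, smul_comm, mul_comm, mul_smul, hi, smul_zero, smul_zero]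
  obtain ⟨c, hc, c0⟩ := (((eventually_all_finite hT).2 key).and self_mem_nhdsWithin).exists
  refine ⟨c, c0, fun a ha hsq hs => ?_⟩
  obtain ⟨R, hR, l, hl⟩ := hU a ha
  obtain ⟨m₀, ⟨N, N0, hN⟩, hm⟩ := hc R hR a l hsq hl hs
  have e : ∀ r : S, a r = bc _ (R + m₀ • 2 • P) := fun r => TOPx.fin a_MUL a_CO a_TS a_PROP
    a_LNK a_FI hD r.1 (a r) (2 • P) R l m₀ (hl r) hm
  have o : ∀ u : S, u = p ∨ u = q →
      ∃ i, addOrderOf (n • (R + m₀ • 2 • P) - Q) ∣ (w u).p ^ i := fun u hu =>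
    top_ord (hw u) N0 hN (c := c) (by
      have h := hs u hu
      rwa [e u, ← map_nsmul, ← map_sub] at h)
  obtain ⟨i, hi⟩ := o p (.inl rfl)
  obtain ⟨i', hi'⟩ := o q (.inr rfl)
  exact ⟨_, Γ.add_mem (hT' R hR).1 (Γ.zsmul_mem (Γ.nsmul_mem hP 2) m₀),
    sub_eq_zero.1 (AddMonoid.addOrderOf_eq_one_iff.1 (Nat.eq_one_of_dvd_coprimes
      (Nat.coprime_pow_primes _ _ (w p).prime (w q).prime (ne pq)) hi hi')), e⟩

end Pool.Agent.P.MP_ab3ecb_nt.IK
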