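import Pool.Agent.P.MP_ab3ecb_nt.IK.TSIG
import Pool.Agent.P.MP_ab3ecb_nt.IK.TKF
import Pool.Agent.P.MP_ab3ecb_nt.IK.TKRA
import Pool.Agent.P.MP_ab3ecb_nt.IK.TKR
import Pool.Agent.P.MP_ab3ecb_nt.IK.TONE
import Pool.Agent.P.MP_ab3ecb_nt.IK.TSTK
import Pool.Agent.P.MP_ab3ecb_nt.IK.TKEY
import Pool.Agent.P.MP_ab3ecb_nt.IK.TULT
import Pool.Agent.P.MP_ab3ecb_nt.IK.TTOP

/-! Assembly of the steps. -/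

namespace Pool.Agent.P.MP_ab3ecb_nt.IK

theorem a_TOP : S_TOP :=
  @p_TOP (@p_KEY (@p_STK (@p_ONE (@p_KF @p_SIG) (@p_KR @p_KRA)))) @p_ULT

end Pool.Agent.P.MP_ab3ecb_nt.IK
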