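import Pool.Agent.P.MP_ab3ecb_nt.IK.Iface

/-! The sieve set in a coset of `N Γ`. -/

set_option autoImplicit false

namespace Pool.Agent.P.MP_ab3ecb_nt.IK

open Filter Topology NumberField IsDedekindDomain TK
open Pool.Agent.P.MP_8b7eba_nt.R2 hiding Sm
open scoped Classical NNReal

lemma cos_ult {K : Type} [Field K] [NumberField K] [Algebra K ℝ] {A B : 𝓞 K}
    {Γ : AddSubgroup (Pt A B K)} (F : MvPolynomial (Fin 2) (𝓞 K))
    (S : Set (HeightOneSpectrum (𝓞 K))) (hΓ : ∃ P : Γ, (AddSubgroup.zmultiples P).FiniteIndex) :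
    ∃ P ∈ Γ, ∃ (k : ℕ) (T : Set (Pt A B K)), 0 < k ∧ T.Finite ∧ (∀ R ∈ T, R ∈ Γ ∧ Neg F R) ∧
      (∀ Q ∈ Γ, ∃ j : ℤ, k • Q = j • 2 • P) ∧ ∀ (T₀ : Set (Pt A B K)) (a : ∀ r : S, Loc A B r.1),
      (∀ Q ∈ T₀, Q ∈ Γ ∧ Neg F Q) → InCl T₀ a → ∃ R ∈ T, ∃ l : Ultrafilter ℤ,
        (∀ᶠ m : ℤ in l, R + m • 2 • P ∈ T₀) ∧
        ∀ r : S, Tendsto (fun m : ℤ => co (bc (Kv r.1) (R + m • 2 • P))) l (𝓝 (co (a r))) := by
  obtain ⟨P, hP⟩ := hΓ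
  let g : (Γ ⧸ AddSubgroup.zmultiples P) × Fin 2 → Pt A B K := fun i =>
    (i.1.out + (i.2 : ℕ) • P : Γ)
  refine ⟨P, P.2, 2 * (AddSubgroup.zmultiples P).index, Set.range g ∩ {R | Neg F R},
    Nat.mul_pos two_pos (Nat.pos_of_ne_zero hP.index_ne_zero),
    (Set.finite_range g).inter_of_left _, ?_, fun Q hQ => ?_, fun T₀ a hT hc => ?_⟩
  · rintro _ ⟨⟨i, rfl⟩, h⟩
    exact ⟨Subtype.prop _, h⟩
  · obtain ⟨j, hj⟩ := (AddSubgroup.zmultiples P).nsmul_index_mem ⟨Q, hQ⟩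
    have e : j • (P : Pt A B K) = (AddSubgroup.zmultiples P).index • Q := congrArg Subtype.val hj
    exact ⟨j, by rw [mul_smul, ← e, smul_comm]⟩
  rw [InCl, mem_closure_iff_clusterPt, ClusterPt, ← map_principal, ← Filter.push_pull',
    map_neBot_iff] at hc
  let U := Ultrafilter.of (comap (fun Q (r : S) => co (loc r.1 Q)) (𝓝 fun r => co (a r)) ⊓ 𝓟 T₀)
  have hU := le_inf_iff.1 (Ultrafilter.of_le (comap (fun Q (r : S) => co (loc r.1 Q))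
    (𝓝 fun r => co (a r)) ⊓ 𝓟 T₀))
  have h1 : ∀ᶠ Q in (U : Filter _), Q ∈ T₀ := le_principal_iff.1 hU.2
  have h2 : ∀ᶠ Q in (U : Filter _), ∃ i, ∃ m : ℤ, Q = g i + m • 2 • (P : Pt A B K) :=
    h1.mono fun Q hQ => by
      obtain ⟨i, m, e⟩ := ULTx.cosets P ⟨Q, (hT Q hQ).1⟩
      exact ⟨i, m, congrArg Subtype.val e⟩
  obtain ⟨i, hi⟩ := Ultrafilter.eventually_exists_iff.1 h2
  have h3 : ∀ Q : Pt A B K, ∃ m : ℤ, (∃ m : ℤ, Q = g i + m • 2 • (P : Pt A B K)) →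
      Q = g i + m • 2 • (P : Pt A B K) := fun Q => by
    by_cases h : ∃ m : ℤ, Q = g i + m • 2 • (P : Pt A B K)
    · exact h.imp fun m hm _ => hm
    · exact ⟨0, fun h' => absurd h' h⟩
  choose m hm using h3
  refine ⟨g i, ⟨⟨i, rfl⟩, ?_⟩, U.map m, ?_, fun r => ?_⟩
  · obtain ⟨Q, h4, n, rfl⟩ := (h1.and hi).exists
    obtain ⟨-, Z, x, y, h, e, hn⟩ := hT _ h4
    refine ⟨n • bc ℝ (P : Pt A B K) + Z, x, y, h, ?_, hn⟩
    rw [← e, map_add, map_zsmul, map_nsmul]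
    module
  · rw [Ultrafilter.coe_map, eventually_map]
    exact (h1.and hi).mono fun Q hQ => hm Q hQ.2 ▸ hQ.1
  · rw [Ultrafilter.coe_map, tendsto_map'_iff]
    refine (tendsto_pi_nhds.1 (tendsto_iff_comap.2 hU.1) r).congr' (hi.mono fun Q hQ => ?_)
    simp only [Function.comp_apply, ← hm Q hQ]
    rfl

lemma cos_id {G : Type} [AddCommGroup G] {P R Q : G} {n k : ℕ} {j j' : ℤ} (hk : k • Q = j • P)
    (hk' : k • R = j' • P) (m : ℤ) :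
    (((n * k : ℕ) : ℤ) * m - (j - n * j')) • P = k • (n • (R + m • P) - Q) := by
  rw [← natCast_zsmul] at hk hk'
  rw [← natCast_zsmul _ n, ← natCast_zsmul _ k]
  push_cast
  linear_combination (norm := module) hk - (n : ℤ) • hk'

theorem cos_top (hKEY : S_KEY) {K : Type} [Field K] [NumberField K] [Algebra K Om] [Algebra K ℝ]
    [Cmp K] {A B : 𝓞 K} (hD : 4 * A ^ 3 + 27 * B ^ 2 ≠ 0) {Γ : AddSubgroup (Pt A B K)}
    (hΓ : ∃ P : Γ, (AddSubgroup.zmultiples P).FiniteIndex) {F : MvPolynomial (Fin 2) (𝓞 K)}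
    (hO : Oth A B F) {S : Set (HeightOneSpectrum (𝓞 K))} (hS : Sᶜ.Finite) {p q : ℕ}
    (hp : p.Prime) (hq : q.Prime) (pq : p ≠ q) {n : ℕ}
    (hn : n ≠ 0) {Q : Pt A B K} (hQ : Q ∈ Γ) : ∃ L : ℕ, ∀ a : ∀ v : S, Loc A B v.1,
      InCl {R | R ∈ Γ ∧ Neg F R ∧ ∃ T ∈ Γ, n • R - Q = (p * q) ^ L • T} a →
      (∀ v, a v ≠ 0 → IsSquare (ev F (a v))) →
      ∃ R ∈ Γ, IsOfFinAddOrder (n • R - Q) ∧ ∀ v, a v = loc v R := by
  obtain ⟨P, hP, k, T, hk0, hT, hT', hk, hU⟩ := cos_ult F S hΓ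
  obtain ⟨j, hkj⟩ := hk Q hQ
  obtain ⟨B₀, hB⟩ := TOPx.bdS TK.a_LNK hS
  have key : ∀ R ∈ T, ∀ᶠ L : ℕ in atTop, ∀ l : Ultrafilter ℤ,
      SqH F (B₀ + 2) l (fun m => R + m • 2 • P) →
      (∀ᶠ m : ℤ in l, ∃ T ∈ Γ, n • (R + m • 2 • P) - Q = (p * q) ^ L • T) →
      ∃ m₀ : ℤ, IsOfFinAddOrder (n • (R + m₀ • 2 • P) - Q) ∧
        ∀ N : ℕ, 0 < N → ∀ᶠ m in l, ∃ k : ℤ, (m - m₀) • 2 • P = k • N • 2 • P := fun R hR => by
    obtain ⟨j', hkj'⟩ := hk R (hT' R hR).1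
    by_cases hNT : NT P
    · filter_upwards [hKEY A B F (B₀ + 2) P R (j - n * j') (n * k) p q hD hO hNT
        (hT' R hR).2 hp hq pq (by positivity)] with L hL l sq hm
      obtain ⟨m₀, h1, hm⟩ := hL l sq (hm.mono fun m ⟨T, h1, h2⟩ => by
        obtain ⟨i, hi⟩ := hk T h1
        have h3 := cos_id (n := n) hkj hkj' m
        rw [h2, smul_comm k, hi, ← natCast_zsmul (i • _), ← natCast_zsmul P, smul_smul, smul_smul,
          smul_smul, ← sub_eq_zero, ← sub_smul, ← sub_mul] at h3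
        have h4 := sub_eq_zero.1 ((mul_eq_zero.1 (hNT _ h3)).resolve_right (by norm_num))
        rw [h4, Nat.cast_pow, Nat.cast_mul, mul_pow]
        exact ⟨(dvd_mul_right _ _).mul_right _, (dvd_mul_left _ _).mul_right _⟩)
      refine ⟨m₀, isOfFinAddOrder_iff_nsmul_eq_zero.2 ⟨k, hk0, ?_⟩,
        fun N hN => (hm N hN).mono fun m ⟨i, hi⟩ => ⟨i, ?_⟩⟩
      · rw [← cos_id hkj hkj', h1, sub_self, zero_smul]
      · rw [hi, ← natCast_zsmul (2 • P) N, mul_comm, mul_smul]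
    · obtain ⟨i, hi, hi0⟩ : ∃ i : ℤ, i • P = 0 ∧ i ≠ 0 := by
        by_contra h
        exact hNT fun i hi => by_contra fun h0 => h ⟨i, hi, h0⟩
      refine .of_forall fun L l _ _ => ?_
      obtain ⟨m₀, hm⟩ := TOPx.res l i hi0
      refine ⟨m₀, isOfFinAddOrder_iff_nsmul_eq_zero.2 ⟨i.natAbs * k, by positivity, ?_⟩,
        fun N _ => hm.mono fun m ⟨k, hk⟩ => ⟨0, ?_⟩⟩
      · rw [mul_smul, ← cos_id hkj hkj', smul_comm, smul_comm _ 2,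
          natAbs_nsmul_eq_zero.2 hi, smul_zero, smul_zero]
      · rw [hk, zero_smul, smul_comm, mul_comm, mul_smul, hi, smul_zero, smul_zero]
  obtain ⟨L, hL⟩ := ((eventually_all_finite hT).2 key).exists
  refine ⟨L, fun a ha hsq => ?_⟩
  obtain ⟨R, hR, l, h0, hl⟩ := hU _ a (fun Q h => ⟨h.1, h.2.1⟩) ha
  obtain ⟨m₀, h1, hm⟩ := hL R hR l (fun w h U R' h1 h2 h3 h4 h5 =>
    let ⟨v, hv⟩ := hB w (by omega)
    TK.a_SQ A B F v.1 w U R' l (fun m => R + m • 2 • P) (a v) hv (by omega) h1 h2 h3 h4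
      l.neBot h5 (hl v) (hsq v)) (h0.mono fun m h => h.2.2)
  exact ⟨_, Γ.add_mem (hT' R hR).1 (Γ.zsmul_mem (Γ.nsmul_mem hP 2) m₀), h1, fun v =>
    TOPx.fin TK.a_MUL TK.a_CO TK.a_TS TK.a_PROP TK.a_LNK TK.a_FI hD v.1 (a v) (2 • P) R l m₀
      (hl v) hm⟩

end Pool.Agent.P.MP_ab3ecb_nt.IK
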