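import Pool.Agent.P.MP_ab3ecb_nt.TK.All
import Pool.Agent.P.MP_ab3ecb_nt.IS.Base

/-! The steps of the proof that rational points are isolated, as statements. -/

namespace Pool.Agent.P.MP_ab3ecb_nt.IK

open Filter Topology NumberField IsDedekindDomain TK
open Pool.Agent.P.MP_ab3ecb_nt.TP (Dn)
open Pool.Agent.P.MP_ab3ecb_nt.IS (Nr)
open Pool.Agent.P.MP_8b7eba_nt.R2 hiding Sm
open scoped Classical NNReal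

/-- The local square condition at the places above the primes larger than `B₀`. -/
def SqH {K : Type} [Field K] [Algebra K Om] {A B : 𝓞 K} (F : MvPolynomial (Fin 2) (𝓞 K)) (B₀ : ℕ)
    (l : Ultrafilter ℤ) (γ : ℤ → Pt A B K) : Prop :=
  ∀ w : Pl, B₀ < w.p → ∀ (U : Subgroup GQ) (R : Pt A B Om), FixP U R → R ≠ 0 →
    w.v (X R) ≤ 1 → w.v (ev F R) = 1 → (∀ᶠ m : ℤ in l, E1 w.v (rt (γ m) - R)) →
      Sq (w.D ⊓ U) (ev F R)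

-- deps:
def S_SIG : Prop := ∀ {K : Type} [Field K] [NumberField K] [Algebra K Om] (A B : 𝓞 K)
  (w : Pl) (U : Subgroup GQ) (P V W : Pt A B Om) (P₀ : Pt A B K)
  (p q k : ℕ), 4 * A ^ 3 + 27 * B ^ 2 ≠ 0 → IsOpen (U : Set GQ) → FixP U P → FixP U V → FixP U W →
  p.Prime → q.Prime → p ^ k • V = 0 → p ^ k • W = 0 → V ≠ 0 → W ≠ 0 → V + W ≠ 0 → V - W ≠ 0 →
    ∃ n₀, 0 < n₀ ∧ ∀ (z : ℤ) (n d d' : ℕ), 0 < n → n₀ ∣ n → Dn p q n d → Dn p q n d' →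
      Sq (w.D ⊓ U) (bt (P + z • rt P₀) V W d * bt (P + z • rt P₀) V W d')

-- deps: SIG
def S_KF : Prop := ∀ {K : Type} [Field K] [NumberField K] [Algebra K Om] (A B : 𝓞 K)
  (F : MvPolynomial (Fin 2) (𝓞 K)) (B₀ : ℕ) (U : Subgroup GQ)
  (P V W R : Pt A B Om) (P₀ : Pt A B K) (p q k : ℕ), 4 * A ^ 3 + 27 * B ^ 2 ≠ 0 →
  IsOpen (U : Set GQ) → FixP U P → FixP U V → FixP U W → FixP U R → p.Prime → q.Prime →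
  p ^ k • V = 0 → p ^ k • W = 0 → V ≠ 0 → W ≠ 0 → V + W ≠ 0 → V - W ≠ 0 → R ≠ 0 → ev F R ≠ 0 →
    ∃ n₀, 0 < n₀ ∧ ∀ (z : ℤ) (l : Ultrafilter ℤ)
      (γ : ℤ → Pt A B K) (n d d' : ℕ), SqH F B₀ l γ → 0 < n → n₀ ∣ n → Dn p q n d → Dn p q n d' →
      (∀ᶠ m in l, ∃ μ : ℤ, rt (γ m) = R + μ • (P + z • rt P₀) ∧ ((p ^ k * d : ℕ) : ℤ) ∣ μ ∧
        ((p ^ k * d' : ℕ) : ℤ) ∣ μ) → ∀ w : Pl,
      Nm (w.D ⊓ U) (ev F R) (bt (P + z • rt P₀) V W d * bt (P + z • rt P₀) V W d')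

-- deps:
def S_KRA : Prop := ∀ {K : Type} [Field K] [NumberField K] [Algebra K Om] [Algebra K ℝ] [Cmp K]
  (A B : 𝓞 K) (f : ℝ →+ Pt A B ℝ) (P V : Pt A B Om) (P₀ : Pt A B K)
  (u : ℝ) (p M : ℕ) (a b : ℤ) (g : GK K), 4 * A ^ 3 + 27 * B ^ 2 ≠ 0 → Unif f →
  p.Prime → M.Coprime p → M • P = rt P₀ → a + b = 1 → a - b = p → IsR 1 P (f u) →
  IsR 1 V (f (1 / p ^ 2)) → g.1 ∉ stab P V → g.1⁻¹ * tau * g.1 ∈ stab P V →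
    ∀ᶠ x in 𝓝 (1 / p ^ 2 : ℝ) ×ˢ 𝓝 (1 / p ^ 2 : ℝ), ∀ (Q : Pt A B K) (u' : ℝ), Irrational u' →
      IsR 1 (P + rt Q) (f u') → ∀ (d d' : ℕ) (k k' : ℤ), 0 < d → 0 < d' →
      (M : ℤ) ∣ d - 1 → (M : ℤ) ∣ d' - 1 → d * u' + k = x.1 → d' * u' + k' = x.2 →
      0 < (io (g.1 (bt (P + rt Q) (a • V) (b • V) d * bt (P + rt Q) (a • V) (b • V) d'))).re

-- deps: KRA
def S_KR : Prop := ∀ {K : Type} [Field K] [NumberField K] [Algebra K Om] [Algebra K ℝ] [Cmp K]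
  (A B : 𝓞 K) (f : ℝ →+ Pt A B ℝ) (P V : Pt A B Om) (P₀ : Pt A B K)
  (u : ℝ) (p M : ℕ) (a b : ℤ), 4 * A ^ 3 + 27 * B ^ 2 ≠ 0 → Unif f →
  p.Prime → M.Coprime p → M • P = rt P₀ → a + b = 1 → a - b = p → IsR 1 P (f u) →
  IsR 1 V (f (1 / p ^ 2)) → ∃ η y y' : ℝ, 0 < η ∧ ∀ (Q : Pt A B K) (u' : ℝ), Irrational u' →
    IsR 1 (P + rt Q) (f u') → ∀ (d d' : ℕ) (k k' : ℤ), 0 < d → 0 < d' →
      (M : ℤ) ∣ d - 1 → (M : ℤ) ∣ d' - 1 → d * u' + k ∈ Set.Ioo y (y + η) →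
      d' * u' + k' ∈ Set.Ioo y' (y' + η) →
      (io (bt (P + rt Q) (a • V) (b • V) d * bt (P + rt Q) (a • V) (b • V) d')).re < 0 ∧
      ∀ g ∈ GK K, g ∉ stab P V → g⁻¹ * tau * g ∈ stab P V →
        0 < (io (g (bt (P + rt Q) (a • V) (b • V) d * bt (P + rt Q) (a • V) (b • V) d'))).re

-- deps: KF KR
def S_ONE : Prop := ∀ {K : Type} [Field K] [NumberField K] [Algebra K Om] [Algebra K ℝ] [Cmp K]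
  (A B : 𝓞 K) (F : MvPolynomial (Fin 2) (𝓞 K)) (B₀ : ℕ)
  (f : ℝ →+ Pt A B ℝ) (P R : Pt A B Om) (P₀ P₁ : Pt A B K) (R' : Pt A B ℝ) (u : ℝ) (p q M : ℕ),
  4 * A ^ 3 + 27 * B ^ 2 ≠ 0 → Oth A B F → Unif f → p.Prime → q.Prime → p ≠ q → p ≠ 2 → 0 < M →
  M.Coprime (p * q) → M • P = rt P₁ → IsR 1 P (f u) → IsR 1 R R' → R' ≠ 0 → ev F R' < 0 →
    ∀ᶠ c : ℕ in atTop, ∀ (z : ℤ) (u' : ℝ) (l : Ultrafilter ℤ)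
      (γ : ℤ → Pt A B K) (j k : ℕ), SqH F B₀ l γ → Irrational u' →
      IsR 1 (P + z • rt P₀) (f u') → c ≤ j → c ≤ k →
      (∀ᶠ m in l, ∃ μ : ℤ, rt (γ m) = R + μ • (P + z • rt P₀) ∧ (p : ℤ) ^ j ∣ μ ∧
        (q : ℤ) ^ k ∣ μ) → Nr c u' (p ^ j * q ^ k)

-- deps: ONE
def S_STK : Prop := ∀ {K : Type} [Field K] [NumberField K] [Algebra K Om] [Algebra K ℝ] [Cmp K]
  (A B : 𝓞 K) (F : MvPolynomial (Fin 2) (𝓞 K)) (B₀ : ℕ)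
  (f : ℝ →+ Pt A B ℝ) (P R : Pt A B K) (u : ℝ) (s : ℤ) (t r p q : ℕ),
  4 * A ^ 3 + 27 * B ^ 2 ≠ 0 → Oth A B F → Unif f → f u = bc ℝ P → Irrational u →
  Neg F R → r.Prime → p.Prime → q.Prime → r ≠ p → r ≠ q → p ≠ q → 0 < t → t.Coprime (p * q) →
    ∀ᶠ c : ℕ in atTop, ∀ (l : Ultrafilter ℤ) (i j k : ℕ),
      SqH F B₀ l (fun m => R + m • P) → c ≤ j → c ≤ k →
      (∀ᶠ m in l, (r : ℤ) ^ i ∣ t * m - s ∧ ¬ (r : ℤ) ^ (i + 1) ∣ t * m - s ∧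
        (p : ℤ) ^ j ∣ t * m - s ∧ (q : ℤ) ^ k ∣ t * m - s) → Nr c (r ^ i * (u / t)) (p ^ j * q ^ k)

-- deps: STK
def S_KEY : Prop := ∀ {K : Type} [Field K] [NumberField K] [Algebra K Om] [Algebra K ℝ] [Cmp K]
  (A B : 𝓞 K) (F : MvPolynomial (Fin 2) (𝓞 K)) (B₀ : ℕ)
  (P R : Pt A B K) (s : ℤ) (t p q : ℕ), 4 * A ^ 3 + 27 * B ^ 2 ≠ 0 → Oth A B F → NT P →
  Neg F R → p.Prime → q.Prime → p ≠ q → 0 < t →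
    ∀ᶠ L : ℕ in atTop, ∀ l : Ultrafilter ℤ, SqH F B₀ l (fun m => R + m • 2 • P) →
      (∀ᶠ m in l, (p : ℤ) ^ L ∣ t * m - s ∧ (q : ℤ) ^ L ∣ t * m - s) →
      ∃ m₀ : ℤ, t * m₀ = s ∧ ∀ N : ℕ, 0 < N → ∀ᶠ m in l, (N : ℤ) ∣ m - m₀

-- deps:
def S_ULT : Prop := ∀ {K : Type} [Field K] [NumberField K] [Algebra K ℝ] (A B : 𝓞 K)
  (Γ : AddSubgroup (Pt A B K)) (F : MvPolynomial (Fin 2) (𝓞 K))
  (S : Set (HeightOneSpectrum (𝓞 K))), (∃ P : Γ, (AddSubgroup.zmultiples P).FiniteIndex) →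
  ∃ P ∈ Γ, ∃ T : Set (Pt A B K), T.Finite ∧ (∀ R ∈ T, R ∈ Γ ∧ Neg F R) ∧
    (∀ Q ∈ Γ, ∃ (k : ℕ) (j : ℤ), 0 < k ∧ k • Q = j • 2 • P) ∧
    ∀ a : ∀ r : S, Pt A B (Kv r.1), (fun r => co (a r)) ∈ closure
      ((fun Q (r : S) => co (bc (Kv r.1) Q)) '' {Q | Q ∈ Γ ∧ Neg F Q}) →
      ∃ R ∈ T, ∃ l : Ultrafilter ℤ,
        ∀ r : S, Tendsto (fun m : ℤ => co (bc (Kv r.1) (R + m • 2 • P))) l (𝓝 (co (a r)))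

-- deps: KEY ULT
def S_TOP : Prop := ∀ {K : Type} [Field K] [NumberField K] [Algebra K Om] [Algebra K ℝ] [Cmp K]
  (A B : 𝓞 K) (Γ : AddSubgroup (Pt A B K)) (F : MvPolynomial (Fin 2) (𝓞 K))
  (S : Set (HeightOneSpectrum (𝓞 K))) (p q : S) (n : ℕ) (Q : Pt A B K),
  4 * A ^ 3 + 27 * B ^ 2 ≠ 0 → (∃ P : Γ, (AddSubgroup.zmultiples P).FiniteIndex) → Sᶜ.Finite →
  Oth A B F → p.1.asIdeal.under ℤ ≠ q.1.asIdeal.under ℤ →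
  n ≠ 0 → Q ∈ Γ → ∃ c : ℝ≥0, 0 < c ∧
    ∀ a : ∀ v : S, Pt A B (Kv v.1), (fun v => co (a v)) ∈ closure
      ((fun Q (v : S) => co (bc (Kv v.1) Q)) '' {Q | Q ∈ Γ ∧ Neg F Q}) →
      (∀ v, a v ≠ 0 → IsSquare (ev F (a v))) →
      (∀ v : S, v = p ∨ v = q →
        Sm (NormedField.valuation (K := Kv v.1)) c (n • a v - bc _ Q)) →
      ∃ R ∈ Γ, n • R = Q ∧ ∀ v, a v = bc _ R

end Pool.Agent.P.MP_ab3ecb_nt.IK
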