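import Pool.Agent.P.MP_ab3ecb_nt.IK.Iface

/-! Step SIG. -/

set_option autoImplicit false
set_option linter.unusedSectionVars false

namespace Pool.Agent.P.MP_ab3ecb_nt.IK

open Filter Topology NumberField IsDedekindDomain TK
open Pool.Agent.P.MP_ab3ecb_nt.TP (Dn)
open Pool.Agent.P.MP_ab3ecb_nt.IS (Nr nr_of ef gap)
open Pool.Agent.P.MP_8b7eba_nt.R2 hiding Sm
open scoped Classical NNReal

open SIGx in
theorem p_SIG :
    S_SIG := by
  intro K _ _ _ A B w U P₁ V W P₀ p q k hD hU hP hV hW hp hq kV kW V0 W0 S0 D0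
  obtain ⟨c1, p1, l1, n1⟩ := far w.v V0
  obtain ⟨c2, p2, -, n2⟩ := far w.v S0
  obtain ⟨c3, p3, -, n3⟩ := far w.v D0
  obtain ⟨c, pc, lc, a1, a2, a3⟩ : ∃ c : ℝ≥0, 0 < c ∧ c ≤ 1 ∧ ¬ Sm w.v c V ∧ ¬ Sm w.v c (V + W) ∧
      ¬ Sm w.v c (V - W) :=
    ⟨min c1 (min c2 c3), by positivity, (min_le_left _ _).trans l1,
      fun h => n1 (h.mono (min_le_left _ _)),
      fun h => n2 (h.mono ((min_le_right _ _).trans (min_le_left _ _))),
      fun h => n3 (h.mono ((min_le_right _ _).trans (min_le_right _ _)))⟩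
  obtain ⟨M, M1, M2, M3⟩ : ∃ M : ℝ≥0, 1 ≤ M ∧ (c ^ 2)⁻¹ ≤ M ∧ w.v (X W) ≤ M :=
    ⟨max 1 (max (c ^ 2)⁻¹ (w.v (X W))), le_max_left _ _, le_max_of_le_right (le_max_left _ _),
      le_max_of_le_right (le_max_right _ _)⟩
  have M0 : 0 < M := one_pos.trans_le M1
  obtain ⟨ε, pε, hε⟩ := a_FARE A B Om w.v c M hD pc
  have v4 : 0 < w.v 4 := w.v.pos_iff.2 (by norm_num)
  obtain ⟨b, pb, b1, b2, b3⟩ : ∃ b : ℝ≥0, 0 < b ∧ b ≤ c ∧ b * M ≤ 1 ∧ b * M ^ 2 < ε * w.v 4 := by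
    refine ⟨min c (min M⁻¹ (ε * w.v 4 / 2 / M ^ 2)), by positivity, min_le_left _ _, ?_, ?_⟩
    · rw [← le_div_iff₀ M0, one_div]
      exact (min_le_right _ _).trans (min_le_left _ _)
    · refine lt_of_le_of_lt ?_ (NNReal.half_lt_self (mul_pos pε v4).ne')
      rw [← le_div_iff₀ (pow_pos M0 2)]
      exact (min_le_right _ _).trans (min_le_right _ _)
  obtain ⟨N₁, pN₁, hN₁⟩ := a_FI A B w U P₁ b hD hU hP pb
  obtain ⟨N₀, pN₀, hN₀⟩ := a_FI A B w U (rt P₀) b hD hU (fixP_rt hP.1 _) pb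
  obtain ⟨n₀, N', e, pn, cop, -, har⟩ := TP.a_AR p q (N₁ * N₀) hp hq (mul_pos pN₁ pN₀)
  obtain ⟨m1, m2, -⟩ := a_MUL A B Om _ w.v
  refine ⟨n₀, pn, fun z n d d' h0 hn hd hd' => ?_⟩
  have hN : Sm w.v b ((N₁ * N₀) • (P₁ + z • rt P₀)) := by
    have := m1 _ _ _ (m2 _ _ N₀ hN₁) (m2 _ _ (N₁ * z) hN₀)
    rw [← natCast_zsmul, ← natCast_zsmul] at this
    rw [← natCast_zsmul]
    convert this using 1
    push_cast
    module
  replace hP := hP.add ((fixP_rt hP.1 P₀).zsmul z)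
  generalize P₁ + z • rt P₀ = P at *
  generalize N₁ * N₀ = N at *
  have mul : ∀ m : ℤ, (N : ℤ) ∣ m → Sm w.v b (m • P) := by
    rintro _ ⟨m, rfl⟩
    rw [mul_comm, mul_smul, natCast_zsmul]
    exact m2 _ _ _ hN
  have key : ∀ d : ℕ, N ∣ N' * d →
      d • P - V ≠ 0 ∧ w.v (X (d • P - V)) ≤ M ∧ ε ≤ w.v (bt P V W d) := fun d hd => by
    have h1 : Sm w.v c (N' • d • P) := by
      have := (mul _ (Int.natCast_dvd_natCast.2 hd)).mono b1
      rwa [natCast_zsmul, mul_smul] at this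
    obtain ⟨h2, h3⟩ := bound_of_not_sm lc fun h => a1 (back w.v a_MUL cop kV h1 h)
    have h4 : w.v (X (d • P - V)) ≤ M := by
      refine le_trans ?_ M2
      rwa [← one_div, le_div_iff₀ (pow_pos pc 2), mul_comm]
    refine ⟨h2, h4, not_lt.1 fun h5 => ?_⟩
    rcases hε _ _ h2 W0 h4 M3 h5 with h6 | h6
    · exact a2 (back w.v a_MUL cop (by rw [smul_add, kV, kW, add_zero]) h1 (by rwa [← sub_sub]))
    · exact a3 (back w.v a_MUL cop (by rw [smul_sub, kV, kW, sub_zero]) h1 (by rwa [← sub_add]))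
  obtain ⟨e1, e2⟩ := har n d h0 hn hd
  obtain ⟨e3, e4⟩ := har n d' h0 hn hd'
  obtain ⟨k1, k2, k3⟩ := key d e1
  have h1 : Sm w.v b (((d' : ℤ) - d) • P) := mul _ (by simpa using dvd_sub e4 e2)
  obtain ⟨-, h2, -⟩ := a_CL A B Om _ w.v M _ _ k1 M1 k2 h1.1
    ((mul_le_mul_left h1.2 M).trans b2)
  rw [show d • P - V + ((d' : ℤ) - d) • P = d' • P - V by
    rw [← natCast_zsmul P d, ← natCast_zsmul P d']; module] at h2
  have h3 : 0 < w.v (bt P V W d) := pε.trans_le k3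
  have h4 : bt P V W d ≠ 0 := w.v.pos_iff.1 h3
  have f1 : Fix (w.D ⊓ U) (bt P V W d) := (hP.bt hV hW d).mono inf_le_right
  have f2 : Fix (w.D ⊓ U) (bt P V W d') := (hP.bt hV hW d').mono inf_le_right
  obtain ⟨y, hy, h5, -⟩ := (a_HENS w (w.D ⊓ U) inf_le_left).1 _ (f2.div f1) (by
    rw [div_sub_one h4, map_div₀, div_lt_iff₀ h3, mul_comm,
      show bt P V W d' - bt P V W d = X (d' • P - V) - X (d • P - V) by simp [bt]]
    exact ((h2.trans (mul_le_mul_left h1.2 _)).trans_lt b3).trans_le (mul_le_mul_left k3 _))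
  refine ⟨y * bt P V W d, hy.mul f1, ?_⟩
  rw [mul_pow, ← h5]
  field_simp

end Pool.Agent.P.MP_ab3ecb_nt.IK
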